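import Pool.Agent.H21.BT.Targets

/-!
# The dual function as a sum of the dual functions of the frequencies (row OMF of `bt_modules`)
-/

set_option autoImplicit false

open Finset Pool.Agent.H6.N4D Pool.Agent.H21.BS Pool.Agent.H21.BT

namespace Pool.Agent.H11.BT

/-- OMF -/
theorem pf_OMF (hLVT : T_LVT) : T_OMF := by
  classical
  intro S W A z hS hz
  refine ⟨?_, ?_, ?_⟩
  · intro ρ hρ i j q
    unfold TS.fc
    split_ifs with h
    · obtain ⟨h1, h2, h3, h4⟩ := h
      have hV := hS.ok i h1 h2 j h3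
      have hA : 1 ≤ A := hV.A1
      have hb : ‖S.b i j (ρ i) q‖ ≤ A := hV.bA (ρ i) (hρ i) q h4
      rw [norm_div, norm_mul, Complex.norm_real, Real.norm_eq_abs, abs_of_pos (by linarith),
        div_le_iff₀ (by linarith)]
      exact mul_le_mul (hz i j q) hb (norm_nonneg _) (by norm_num)
    · rw [norm_zero]
      norm_num
  · intro ρ i n
    rfl
  · intro i x hi1 hiK hx
    obtain ⟨hL, -, -⟩ := hLVT S W A hS
    obtain ⟨hN, -, -, hc, -, -⟩ := hL i hiK
    have hjc : x / S.N i < S.cnt i := Nat.div_lt_of_lt_mul (by rw [mul_comm, hc]; exact hx)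
    have hA : 1 ≤ A := (hS.ok i hi1 hiK _ hjc).A1
    have hA0 : (A : ℂ) ≠ 0 := Complex.ofReal_ne_zero.2 (by linarith)
    have e0 : (S.U + x - S.U) / S.N i = x / S.N i := by rw [Nat.add_sub_cancel_left]
    obtain ⟨j, hj⟩ : ∃ j, j = x / S.N i := ⟨_, rfl⟩
    rw [← hj] at e0 hjc
    have e1 : ∀ r, (S.fam fun _ => r).Om (S.fc A z fun _ => r) i (S.U + x) =
        ∑ q ∈ S.Q i, 1 / (q : ℂ) * S.fc A z (fun _ => r) i j q *
          (DD q (S.U + x) * ee (S.α i j r q * ((S.U + x : ℕ) : ℝ)) * 1) := by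
      intro r
      rw [← e0]
      rfl
    have e2 : S.Om z i (S.U + x) = ∑ q ∈ S.Q i, 1 / (q : ℂ) * z i j q *
        (DD q (S.U + x) * ∑ r ∈ range S.k, S.b i j r q *
          ee (S.α i j r q * ((S.U + x : ℕ) : ℝ))) := by
      rw [← e0]
      rfl
    rw [e2]
    simp only [e1, mul_sum]
    rw [sum_comm]
    refine sum_congr rfl fun r _ => sum_congr rfl fun q hq => ?_
    have e3 : S.fc A z (fun _ => r) i j q = z i j q * S.b i j r q / A :=
      if_pos ⟨hi1, hiK, hjc, hq⟩
    rw [e3]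
    field_simp

end Pool.Agent.H11.BT
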